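import Pool.Agent.Helper10_BAN.Stmt

set_option autoImplicit false

namespace Pool.Agent.BAN.H15

open Set Polynomial Filter

theorem dvd_of_pow {P R : ℝ[X]} {N : ℕ} (hN : N ≠ 0) (h : P ^ N ∣ R ^ N) : P ∣ R := by
  exact (IsIntegrallyClosed.pow_dvd_pow_iff hN).1 h

theorem alg : ALGStmt := by
  intro f P R N a b hpos hgr hP hR
  have key : ∃ S : ℝ[X], ∀ t, f t ^ 2 = S.eval t := by
    rcases Nat.eq_zero_or_pos N with h0 | hN
    · subst h0
      exact ⟨R, fun t => by rw [← hR t]⟩
    · have hPR : R ^ N = P ^ (N + 2) := by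
        apply Polynomial.funext
        intro t
        rw [eval_pow, eval_pow, ← hP t, ← hR t, ← pow_mul, ← pow_mul, Nat.mul_comm]
      have hd : P ∣ R := by
        apply dvd_of_pow hN.ne'
        rw [hPR]
        exact pow_dvd_pow P (Nat.le_add_right N 2)
      obtain ⟨S, hS⟩ := hd
      refine ⟨S, fun t => ?_⟩
      have h1 : f t ^ (N + 2) = f t ^ N * S.eval t := by
        rw [hR t, hS, eval_mul, hP t]
      have h2 : f t ^ N ≠ 0 := (pow_pos (hpos t) N).ne'
      rw [pow_add] at h1
      exact mul_left_cancel₀ h2 h1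
  obtain ⟨S, hS⟩ := key
  have hdeg : S.natDegree ≤ 2 := by
    by_contra hlt
    push Not at hlt
    have hd : (X ^ 2 : ℝ[X]).degree < S.degree := by
      rw [degree_X_pow]
      have hS0 : S ≠ 0 := by
        rintro rfl
        simp at hlt
      rw [degree_eq_natDegree hS0]
      exact_mod_cast hlt
    have ht := abs_div_tendsto_atTop_of_degree_gt S (X ^ 2) hd (pow_ne_zero 2 X_ne_zero)
    obtain ⟨t, ht1, ht2⟩ := ((ht.eventually (eventually_gt_atTop ((|a| + |b|) ^ 2))).and
      (eventually_ge_atTop (1 : ℝ))).exists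
    have ht0 : 0 < t := by linarith
    rw [eval_pow, eval_X, ← hS t, abs_of_nonneg (show 0 ≤ f t ^ 2 / t ^ 2 by positivity),
      lt_div_iff₀ (by positivity), ← mul_pow] at ht1
    have h3 : f t ≤ (|a| + |b|) * t := by
      have := hgr t
      rw [abs_of_pos ht0] at this
      have h4 : a ≤ |a| * t := by
        calc a ≤ |a| := le_abs_self a
          _ = |a| * 1 := (mul_one _).symm
          _ ≤ |a| * t := mul_le_mul_of_nonneg_left ht2 (abs_nonneg _)
      have h5 : b * t ≤ |b| * t := mul_le_mul_of_nonneg_right (le_abs_self b) ht0.le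
      nlinarith
    have h6 : f t ^ 2 ≤ ((|a| + |b|) * t) ^ 2 := pow_le_pow_left₀ (hpos t).le h3 2
    linarith
  refine ⟨S.coeff 0, S.coeff 1, S.coeff 2, fun t => ?_⟩
  rw [hS t, eval_eq_sum_range' (Nat.lt_succ_of_le hdeg) t]
  simp [Finset.sum_range_succ]

end Pool.Agent.BAN.H15
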