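import Pool.Agent.Helper10_BAN.Stmt

set_option autoImplicit false

namespace Pool.Agent.BAN.H15

open Set

theorem det1 : DET1Stmt := by
  intro E _ _ _ A hA
  have hne : ∀ t : ℝ, t ∈ Icc (0 : ℝ) 1 → (1 + t • A).det ≠ 0 := by
    intro t ht h0
    have hn : ‖-(t • A)‖ < 1 := by
      rw [norm_neg, norm_smul, Real.norm_eq_abs, abs_of_nonneg ht.1]
      calc t * ‖A‖ ≤ 1 * ‖A‖ := mul_le_mul_of_nonneg_right ht.2 (norm_nonneg _)
        _ < 1 := by rw [one_mul]; exact hA
    have hu : IsUnit (1 - -(t • A)) := isUnit_one_sub_of_norm_lt_one hn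
    rw [sub_neg_eq_add] at hu
    have hu2 : IsUnit ((1 + t • A).det) := by
      obtain ⟨u, hu⟩ := hu
      have h1 : (u : E →L[ℝ] E) * ((u⁻¹ : (E →L[ℝ] E)ˣ) : E →L[ℝ] E) = 1 := by simp
      have h2 : ((u : E →L[ℝ] E)).det * (((u⁻¹ : (E →L[ℝ] E)ˣ) : E →L[ℝ] E)).det = 1 := by
        have := congrArg (fun B : E →L[ℝ] E => LinearMap.det (B : E →ₗ[ℝ] E)) h1
        simp only [ContinuousLinearMap.coe_mul, map_mul] at this
        rw [ContinuousLinearMap.det, ContinuousLinearMap.det, this]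
        exact map_one LinearMap.det
      rw [← hu]
      exact IsUnit.of_mul_eq_one _ h2
    exact hu2.ne_zero h0
  have hc : ContinuousOn (fun t : ℝ => (1 + t • A).det) (Icc (0 : ℝ) 1) := by
    apply Continuous.continuousOn
    exact ContinuousLinearMap.continuous_det.comp
      (continuous_const.add (continuous_id.smul continuous_const))
  by_contra hlt
  push Not at hlt
  have h0 : (1 + (0 : ℝ) • A).det = 1 := by
    rw [zero_smul, add_zero]
    exact map_one LinearMap.det
  have h1 : (1 + (1 : ℝ) • A).det ≤ 0 := by rw [one_smul]; exact hlt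
  obtain ⟨t, ht, ht0⟩ := intermediate_value_Icc' (zero_le_one) hc
    (show (0 : ℝ) ∈ Icc ((1 + (1 : ℝ) • A).det) ((1 + (0 : ℝ) • A).det) from
      ⟨h1, by rw [h0]; exact zero_le_one⟩)
  exact hne t ht ht0

end Pool.Agent.BAN.H15
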